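import Pool.Agent.H523R2.CycDefs
import Pool.Agent.H523R2.CycSpan
import Pool.Agent.H523R2.CodeZero
import Pool.Agent.H523R2.CombLower
import Pool.Agent.H523R2.CombUpper
import Pool.Agent.H523R2.Prime127

set_option autoImplicit false

open Polynomial Pool.Agent.H523R2

namespace Pool.Agent.Results.MP_68eb4a_lc.NonEquivalence

section

variable {G : Type*} [CommGroup G]

/-- reindexing: `γ j = β ((t+1) j)` -/
theorem gam_eq {α : G} {t : ℕ} (hα : orderOf α = 2 ^ (2 * t + 1) - 1) {a b q r : ℕ}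
    (h : a + (2 * t + 1) * q = b + (2 * t + 1) * r) : bet α a = bet α b := by
  rw [bet_mod hα a, bet_mod hα b]
  congr 1
  have h1 : (a + (2 * t + 1) * q) % (2 * t + 1) = a % (2 * t + 1) := Nat.add_mul_mod_self_left _ _ _
  have h2 : (b + (2 * t + 1) * r) % (2 * t + 1) = b % (2 * t + 1) := Nat.add_mul_mod_self_left _ _ _
  rw [← h1, ← h2, h]

theorem bet_pair (α : G) (i a : ℕ) : (α ^ (1 + 2 ^ a)) ^ (2 ^ i) = bet α i * bet α (i + a) := by
  unfold bet
  rw [← pow_mul, ← pow_add]
  congr 1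
  rw [pow_add]; ring

end

variable {K : Type*} [Field K] [Fintype K] [Algebra (ZMod 2) K] [DecidableEq K]

open scoped Pointwise in
theorem large {t : ℕ} (ht : 4 ≤ t) (hn : (2 ^ (2 * t + 1) - 1) + 1 = Fintype.card K) (α : Kˣ)
    (hα : orderOf α = 2 ^ (2 * t + 1) - 1) (σ : Equiv.Perm (Fin (2 ^ (2 * t + 1) - 1)))
    (h : ∀ c : Fin (2 ^ (2 * t + 1) - 1) → ZMod 2,
      c ∈ zeroCode (2 ^ (2 * t + 1) - 1) (frobC {α, α ^ (1 + 2 ^ (t - 1)), α ^ (1 + 2 ^ t)} : Set Kˣ) ↔
      (fun j => c (σ j)) ∈ zeroCode (2 ^ (2 * t + 1) - 1) (frobC {α, α ^ 3, α ^ 5} : Set Kˣ)) : False := by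
  have h1 := card_mul_eq_of_equiv hn _ _ (frobC_sq _) (frobC_sq _) σ h
  have h2 : (2 * t + 1) * (9 * t - 12) ≤ (frobC {α, α ^ 3, α ^ 5} * frobC {α, α ^ 3, α ^ 5}).card := by
    apply lower_bound ht hα
    · intro i
      rw [mem_frobC]
      exact ⟨α, by simp, i, rfl⟩
    · intro i
      rw [mem_frobC]
      exact ⟨α ^ 3, by simp, i, (bet_pair α i 1).symm⟩
    · intro i
      rw [mem_frobC]
      exact ⟨α ^ 5, by simp, i, (bet_pair α i 2).symm⟩
  have h3 : (frobC {α, α ^ (1 + 2 ^ (t - 1)), α ^ (1 + 2 ^ t)} *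
      frobC {α, α ^ (1 + 2 ^ (t - 1)), α ^ (1 + 2 ^ t)}).card ≤ (2 * t + 1) * (9 * t - 13) := by
    apply upper_bound (γ := fun j => bet α ((t + 1) * j))
    · intro i
      apply gam_eq hα (q := 0) (r := t + 1)
      ring
    · intro i
      change bet α ((t + 1) * i) * bet α ((t + 1) * i) = bet α ((t + 1) * (i + 2))
      rw [bet_mul_self]
      apply gam_eq hα (q := 1) (r := 0)
      ring
    · exact ht
    · intro x hx
      rw [mem_frobC] at hx
      obtain ⟨a, ha, k, rfl⟩ := hx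
      simp only [Finset.mem_insert, Finset.mem_singleton] at ha
      rcases ha with rfl | rfl | rfl
      · left
        refine ⟨2 * k, ?_⟩
        change bet a k = bet a ((t + 1) * (2 * k))
        apply gam_eq hα (q := k) (r := 0)
        ring
      · right; right
        refine ⟨2 * (k + (t - 1)), ?_⟩
        change _ = bet α ((t + 1) * (2 * (k + (t - 1)))) * bet α ((t + 1) * (2 * (k + (t - 1)) + 3))
        rw [bet_pair, mul_comm]
        obtain ⟨s, rfl⟩ : ∃ s, t = s + 1 := ⟨t - 1, by omega⟩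
        simp only [Nat.add_sub_cancel]
        congr 1
        · apply gam_eq hα (q := k + s) (r := 0)
          ring
        · apply gam_eq hα (q := k + s + 2) (r := 0)
          ring
      · right; left
        refine ⟨2 * (k + t), ?_⟩
        change _ = bet α ((t + 1) * (2 * (k + t))) * bet α ((t + 1) * (2 * (k + t) + 1))
        rw [bet_pair, mul_comm]
        congr 1
        · apply gam_eq hα (q := k + t) (r := 0)
          ring
        · apply gam_eq hα (q := k + t + 1) (r := 0)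
          ring
  rw [h1] at h3
  have h4 := h2.trans h3
  have h5 : 9 * t - 12 ≤ 9 * t - 13 := Nat.le_of_mul_le_mul_left h4 (by omega)
  omega

/-- residues `u * 2^k` modulo 127 with `u = 1, 3, 5` -/
def inT (v : ℕ) : Bool :=
  (List.range 7).any (fun k => v % 127 == 2 ^ k % 127 || v % 127 == 3 * 2 ^ k % 127 || v % 127 == 5 * 2 ^ k % 127)

theorem inT_check : ∀ b < 127, b ≠ 0 → ¬ (inT b = true ∧ inT (5 * b) = true ∧ inT (9 * b) = true) := by
  decide +kernel

theorem inT_mod (v : ℕ) : inT v = inT (v % 127) := by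
  unfold inT
  simp

theorem small (hn : 127 + 1 = Fintype.card K) (α : Kˣ) (hα : orderOf α = 127)
    (σ : Equiv.Perm (Fin 127))
    (h : ∀ c : Fin 127 → ZMod 2,
      c ∈ zeroCode 127 (frobC {α, α ^ 5, α ^ 9} : Set Kˣ) ↔
      (fun j => c (σ j)) ∈ zeroCode 127 (frobC {α, α ^ 3, α ^ 5} : Set Kˣ)) : False := by
  obtain ⟨b, hb, hx⟩ := exists_multiplier hn (frobC_sq _) (frobC_sq _) σ h
  have key : ∀ v : ℕ, α ^ v ∈ frobC {α, α ^ 3, α ^ 5} → inT v = true := by
    intro v hv
    rw [mem_frobC] at hv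
    obtain ⟨a, ha, k, hk⟩ := hv
    have hmodk : ∀ u : ℕ, u * 2 ^ k % 127 = u * 2 ^ (k % 7) % 127 := by
      intro u
      have h1 : 2 ^ k % 127 = 2 ^ (k % 7) % 127 := by
        conv_lhs => rw [← Nat.mod_add_div k 7, pow_add, pow_mul, Nat.mul_mod, Nat.pow_mod (2 ^ 7)]
        simp
      rw [Nat.mul_mod, h1, ← Nat.mul_mod]
    have hlt : k % 7 < 7 := Nat.mod_lt _ (by norm_num)
    have hfin : ∀ u : ℕ, α ^ v = (α ^ u) ^ 2 ^ k → v % 127 = u * 2 ^ (k % 7) % 127 := by
      intro u hu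
      rw [← pow_mul, pow_inj_mod, hα, hmodk] at hu
      exact hu
    unfold inT
    rw [List.any_eq_true]
    refine ⟨k % 7, List.mem_range.mpr hlt, ?_⟩
    simp only [Finset.mem_insert, Finset.mem_singleton] at ha
    rcases ha with rfl | rfl | rfl
    · have := hfin 1 (by simpa using hk)
      rw [one_mul] at this
      simp [this]
    · have := hfin 3 hk
      simp [this]
    · have := hfin 5 hk
      simp [this]
  have h1 : inT b = true := key b (hx α (by rw [mem_frobC]; exact ⟨α, by simp, 0, by simp⟩))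
  have h2 : inT (5 * b) = true := by
    apply key
    rw [pow_mul]
    exact hx (α ^ 5) (by rw [mem_frobC]; exact ⟨α ^ 5, by simp, 0, by simp⟩)
  have h3 : inT (9 * b) = true := by
    apply key
    rw [pow_mul]
    exact hx (α ^ 9) (by rw [mem_frobC]; exact ⟨α ^ 9, by simp, 0, by simp⟩)
  apply inT_check (b % 127) (Nat.mod_lt _ (by norm_num)) (fun h0 => hb (Nat.dvd_of_mod_eq_zero h0))
  refine ⟨by rw [← inT_mod]; exact h1, ?_, ?_⟩
  · rw [inT_mod, Nat.mul_mod, Nat.mod_mod, ← Nat.mul_mod, ← inT_mod]; exact h2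
  · rw [inT_mod, Nat.mul_mod, Nat.mod_mod, ← Nat.mul_mod, ← inT_mod]; exact h3

/-- For every `t ≥ 3` the cyclic code `C_t` with generator polynomial `M^(1) M^(r) M^(s)`,
`r = 1 + 2^(t-1)`, `s = 1 + 2^t`, is not equivalent to the triple-error-correcting BCH code `B_t`
of the same length `2^(2t+1) - 1`. -/
theorem result (t : ℕ) (ht : 3 ≤ t) (K : Type*) [Field K] [Fintype K] [Algebra (ZMod 2) K]
    (hK : Fintype.card K = 2 ^ (2 * t + 1)) (α : K) (hα : orderOf α = 2 ^ (2 * t + 1) - 1) :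
    ¬ PermEquivalent (codeC α t) (codeB α t) := by
  classical
  rintro ⟨σ, hσ⟩
  have hpos : 1 ≤ 2 ^ (2 * t + 1) := Nat.one_le_two_pow
  have hn : (2 ^ (2 * t + 1) - 1) + 1 = Fintype.card K := by rw [hK]; omega
  have hα0 : α ≠ 0 := by
    rintro rfl
    have h2 : 2 ^ 7 ≤ 2 ^ (2 * t + 1) := Nat.pow_le_pow_right (by norm_num) (by omega)
    rw [orderOf_zero] at hα
    omega
  set a : Kˣ := Units.mk0 α hα0 with ha
  have hav : (a : K) = α := rfl
  have hoa : orderOf a = 2 ^ (2 * t + 1) - 1 := by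
    rw [← hα, ← hav, orderOf_units]
  have eC : codeC α t = zeroCode (2 ^ (2 * t + 1) - 1)
      (frobC {a, a ^ (1 + 2 ^ (t - 1)), a ^ (1 + 2 ^ t)} : Set Kˣ) := by
    rw [← cyclicCode_eq_zeroCode hn (x := a) (y := a ^ (1 + 2 ^ (t - 1))) (z := a ^ (1 + 2 ^ t))
      (bet_pow_ne (by omega) hoa (by omega) (by omega))
      (bet_pow_ne (by omega) hoa (by omega) (by omega))
      (bet_pow_ne' (by omega) hoa (by omega) (by omega) (by omega) (by omega) (by omega))]
    unfold codeC Mpoly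
    simp only [Units.val_pow_eq_pow_val, hav, pow_one]
  have eB : codeB α t = zeroCode (2 ^ (2 * t + 1) - 1) (frobC {a, a ^ 3, a ^ 5} : Set Kˣ) := by
    rw [← cyclicCode_eq_zeroCode hn (x := a) (y := a ^ 3) (z := a ^ 5)
      (bet_pow_ne (t := t) (a := 1) (by omega) hoa (by omega) (by omega))
      (bet_pow_ne (t := t) (a := 2) (by omega) hoa (by omega) (by omega))
      (bet_pow_ne' (t := t) (a := 2) (b := 1) (by omega) hoa (by omega) (by omega) (by omega) (by omega) (by omega))]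
    unfold codeB Mpoly
    simp only [Units.val_pow_eq_pow_val, hav, pow_one]
  have h : ∀ c : Fin (2 ^ (2 * t + 1) - 1) → ZMod 2, c ∈ codeC α t ↔ (fun j => c (σ j)) ∈ codeB α t := by
    intro c
    rw [hσ]
    constructor
    · intro hc
      exact ⟨c, hc, rfl⟩
    · rintro ⟨d, hd, hdc⟩
      have : d = c := by
        funext j
        have := congrFun hdc (σ.symm j)
        simpa using this
      rwa [← this]
  rw [eC, eB] at h
  rcases Nat.lt_or_ge t 4 with h4 | h4
  · have h3 : t = 3 := by omega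
    subst h3
    exact small hn a hoa σ h
  · exact large h4 hn a hoa σ h

end Pool.Agent.Results.MP_68eb4a_lc.NonEquivalence
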